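import Mathlib
import Pool.Agent.Lib.MP_fd533b_co.Long2

/-! The Charney-Davis inequality for flag spheres with few vertices. -/

namespace Pool.Agent.Results.MP_fd533b_co.FewVertices

open Pool.Agent.Lib.MP_fd533b_co Finset

/-- Let `L` be the clique complex of the finite graph `G`, Eulerian of dimension `2k - 1` with
connected links. Then `(-1)^k λ(L) ≥ 0` if `L` has at most `5k + 4` vertices, or if for some
`m ≥ 6` the link of each face with `2k - 2` vertices has `4` or at least `m` vertices and `L` has
at most `m k + max 3 (m - 5)` vertices. -/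
theorem result {V : Type*} [Fintype V] [DecidableEq V] (G : SimpleGraph V)
    [DecidableRel G.Adj] (k : ℕ) (h : Sph G univ (2 * k))
    (hcard : Fintype.card V ≤ 5 * k + 4 ∨ ∃ m : ℕ, 6 ≤ m ∧
      (∀ s ∈ faces G univ, s.card + 2 = 2 * k → (lk G s).card = 4 ∨ m ≤ (lk G s).card) ∧
      Fintype.card V ≤ m * k + max 3 (m - 5)) :
    0 ≤ (-1 : ℚ) ^ k * lam G univ := by
  rcases hcard with hcard | ⟨m, hm, hL, hcard⟩
  · exact cd_few' k univ h (by rwa [card_univ])
  · obtain ⟨j, rfl⟩ : ∃ j, m = j + 4 := ⟨m - 4, by omega⟩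
    refine cd_long (m := j) (by omega) h ?_ ?_
    · intro σ hσ hc
      rw [univ_inter]
      exact hL σ hσ hc
    · rw [card_univ]
      omega

end Pool.Agent.Results.MP_fd533b_co.FewVertices
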