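import Mathlib
import Pool.Agent.Lib.MP_fd533b_co.Long3

/-! Every counterexample to the Charney-Davis conjecture has the link of a face which is a
counterexample, is not a join, and has many vertices, with no larger excess `f_0 - M k`. -/

namespace Pool.Agent.Results.MP_fd533b_co.IrreducibleCounterexample

open Pool.Agent.Lib.MP_fd533b_co Finset

/-- Let `L` (the clique complex of a finite graph, Eulerian of dimension `2k - 1` with connected
links) violate `(-1)^k λ(L) ≥ 0`, and let `M = 5`, or `M ≥ 5` and the link of each face with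
`2k - 2` vertices have `4` or at least `M` vertices. Then `L` has a face `s` (possibly empty), with
`2k - 2k'` vertices for some `k' ≥ 2`, whose link violates the inequality, is not a join, has at
least `6k' + 2` and at least `2(M - 2)k' - 2M + 7 + max(4, M - 3)` vertices and satisfies
`f_0(Lk s) - M k' ≤ f_0(L) - M k`. -/
theorem result {V : Type*} [Fintype V] [DecidableEq V] (G : SimpleGraph V)
    [DecidableRel G.Adj] (k : ℕ) (h : Sph G univ (2 * k))
    (hneg : (-1 : ℚ) ^ k * lam G univ < 0) (M : ℕ) (hM : M = 5 ∨ 5 ≤ M ∧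
      ∀ s ∈ faces G univ, s.card + 2 = 2 * k → (lk G s).card = 4 ∨ M ≤ (lk G s).card) :
    ∃ (k' : ℕ) (s : Finset V), s ∈ faces G univ ∧ s.card + 2 * k' = 2 * k ∧ 2 ≤ k' ∧
      (-1 : ℚ) ^ k' * lam G (lk G s) < 0 ∧
      (∀ A ⊆ lk G s, A.Nonempty → A ≠ lk G s → ∃ x ∈ A, ∃ y ∈ lk G s \ A, ¬ G.Adj x y) ∧
      6 * k' + 2 ≤ (lk G s).card ∧
      2 * (M - 2) * k' + 7 + max 4 (M - 3) ≤ (lk G s).card + 2 * M ∧
      (lk G s).card + M * k ≤ Fintype.card V + M * k' := by
  obtain ⟨m, rfl⟩ : ∃ m, M = m + 4 := ⟨M - 4, by omega⟩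
  have hL : Long G (m + 4) univ (2 * k) := by
    rcases hM with hM | ⟨-, hM⟩
    · rw [hM]
      exact long_five h
    · intro σ hσ hc
      rw [univ_inter]
      exact hM σ hσ hc
  obtain ⟨k', s, hs, hr, hn, hI, h2, h6, -, hsz, hc, -⟩ := reduction_linkL h hL hneg
  rw [univ_inter] at hn hI h6 hsz hc
  refine ⟨k', s, hs, hr, h2, hn, ?_, h6, ?_, by rwa [card_univ] at hc⟩
  · intro A hA hne hAW
    by_contra hcon
    push Not at hcon
    refine hAW (hI.2 A hA hne ?_)
    intro x hx y hy
    by_contra hyA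
    have hy' := mem_non.1 hy
    exact hy'.2.2 (hcon x hx y (mem_sdiff.2 ⟨hy'.1, hyA⟩))
  · rw [show m + 4 - 2 = m + 2 by omega, show m + 4 - 3 = m + 1 by omega, mul_assoc]
    omega

end Pool.Agent.Results.MP_fd533b_co.IrreducibleCounterexample
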