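import Mathlib
import Pool.Agent.Lib.MP_fd533b_co.Main

/-! The Charney-Davis inequality for flag Eulerian complexes in which the link of every face
with an even number of vertices has a suitable full subcomplex meeting the 3-simplices. -/

namespace Pool.Agent.Results.MP_fd533b_co.StarTransversal

open Pool.Agent.Lib.MP_fd533b_co Finset

/-- Let `L` be the clique complex of a finite graph, Eulerian of dimension `2k - 1`. Suppose
that for every face `s` with an even number `|s| < 2k` of vertices there is a set `U` of
vertices of the link of `s` such that `(-1)^(k - |s|/2) λ(U) ≥ 0` and such that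
`λ(Lk (s ∪ t)) = 0` for every nonempty face `t` of the link of `s` which misses `U` and whose
number of vertices is a multiple of 4. Then `(-1)^k λ(L) ≥ 0`. -/
theorem result {V : Type*} [Fintype V] [DecidableEq V] (G : SimpleGraph V)
    [DecidableRel G.Adj] (k : ℕ) (h : IsEulerian G (2 * k))
    (hgood : ∀ s ∈ faces G univ, Even s.card → s.card < 2 * k →
      ∃ U : Finset V, U ⊆ lk G s ∧ 0 ≤ (-1 : ℚ) ^ (k - s.card / 2) * lam G U ∧
        ∀ t ∈ faces G (lk G s \ U), t.Nonempty → 4 ∣ t.card → lam G (lk G (s ∪ t)) = 0) :
    0 ≤ (-1 : ℚ) ^ k * lam G univ :=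
  charneyDavis_of_good h hgood

end Pool.Agent.Results.MP_fd533b_co.StarTransversal
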