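import Mathlib
import Pool.Agent.Lib.MP_fd533b_co.Sparse

/-! The Charney-Davis inequality when, in every link, the non-edges are few or form a graph on a
surface of nonnegative Euler characteristic. -/

namespace Pool.Agent.Results.MP_fd533b_co.SurfaceComplement

open Pool.Agent.Lib.MP_fd533b_co Finset Module

/-- Let `L` be the clique complex of the finite graph `G`, Eulerian of dimension `2k - 1` with
connected links. The Charney-Davis inequality holds for `L` if for each face `s`, `|s|` even and at
most `2k - 4`, the graph `H` of the non-adjacent pairs of vertices of `Lk s`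
(a) has a vertex `x` such that `Lk s` has no `3`-simplex of neighbours of `x` in `H`, or
(b) has average degree at most four, or
(c) has a family of elements of its cycle space, each edge of `H` lying in at most two of them,
which spans a subspace of codimension at most two (as it has if it embeds in a surface of
nonnegative Euler characteristic). -/
theorem result {V : Type*} [Fintype V] [DecidableEq V] (G : SimpleGraph V)
    [DecidableRel G.Adj] (k : ℕ) (h : Sph G univ (2 * k))
    (hlk : ∀ s ∈ faces G univ, Even s.card → s.card + 4 ≤ 2 * k →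
      (∃ x ∈ lk G s, ∀ t ∈ faces G (non G (lk G s) x), t.card ≠ 4) ∨
      ∑ x ∈ lk G s, (non G (lk G s) x).card ≤ 4 * (lk G s).card ∨
      ∃ (ι : Type) (_ : Fintype ι) (B : ι → Sym2 V → ZMod 2),
        (∀ i, B i ∈ Surf.Z (Surf.nonE G (lk G s))) ∧
        (∀ e, (univ.filter (fun i => B i e ≠ 0)).card ≤ 2) ∧
        finrank (ZMod 2) (Surf.Z (Surf.nonE G (lk G s))) ≤
          finrank (ZMod 2) (Submodule.span (ZMod 2) (Set.range B)) + 2) :
    0 ≤ (-1 : ℚ) ^ k * lam G univ := by
  classical
  by_contra hneg
  push Not at hneg
  obtain ⟨k', s, hs, hr, -, -, hk', -, h5, -, hbad, hdense⟩ := reduction_link3 h hneg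
  rw [univ_inter] at hbad hdense h5
  have hne : (lk G s).Nonempty := by
    rw [← card_pos]
    omega
  rcases hlk s hs ⟨k - k', by omega⟩ (by omega) with ⟨x, hx, hno⟩ | hle | ⟨ι, _, B, h1, h2, h3⟩
  · obtain ⟨t, ht, ht4⟩ := hbad x hx
    exact hno t ht ht4
  · omega
  · have := Surf.surf_count (B := B) hne ⟨h1, h2, h3⟩ hbad
    omega

end Pool.Agent.Results.MP_fd533b_co.SurfaceComplement
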